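import Pool.Agent.H83.V.T1

/-!
Row JVV of the board lvv_modules: the conditional probability of a mismatch and the self-joining.
-/

set_option autoImplicit false

open MeasureTheory ProbabilityTheory Filter Topology Finset
open scoped Nat ENNReal

namespace Pool.Agent.H60.V

open Pool.Agent.H67.AG (avgP ul Inv Rt Av SA kap JJ TT InvZ nxt triv tow XN PN TN XX PX TX prX Fac)
open Pool.Agent.H28.LF (Wd La Cd dm ds)
open Pool.Agent.H83.V

/-- the indicator of the symbol `b` -/
noncomputable def jF (c : Vx) (b : Fin c.q) : c.X → ℝ :=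
  (c.a ⁻¹' {b}).indicator fun _ => (1 : ℝ)

theorem jF_meas (c : Vx) (b : Fin c.q) : Measurable (jF c b) :=
  measurable_const.indicator (c.am (MeasurableSet.singleton b))

theorem jF_nonneg (c : Vx) (b : Fin c.q) (x : c.X) : 0 ≤ jF c b x :=
  Set.indicator_nonneg (fun _ _ => zero_le_one) x

theorem jF_abs (c : Vx) (b : Fin c.q) (x : c.X) : |jF c b x| ≤ 1 := by
  unfold jF
  by_cases h : x ∈ c.a ⁻¹' {b}
  · rw [Set.indicator_of_mem h]; simp
  · rw [Set.indicator_of_notMem h]; simp

theorem jF_int (c : Vx) (b : Fin c.q) : Integrable (jF c b) c.μ :=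
  Integrable.of_bound (jF_meas c b).aestronglyMeasurable 1
    (Filter.Eventually.of_forall fun x => by rw [Real.norm_eq_abs]; exact jF_abs c b x)

theorem jF_of (c : Vx) {b : Fin c.q} {x : c.X} (h : c.a x = b) : jF c b x = 1 :=
  Set.indicator_of_mem (show x ∈ c.a ⁻¹' {b} from h) _

theorem jF_ne (c : Vx) {b : Fin c.q} {x : c.X} (h : c.a x ≠ b) : jF c b x = 0 :=
  Set.indicator_of_notMem (show x ∉ c.a ⁻¹' {b} from h) _

theorem jF_sum (c : Vx) : (∑ b, jF c b) = fun _ => (1 : ℝ) := by
  classical
  funext x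
  rw [Finset.sum_apply, Finset.sum_eq_single (c.a x)]
  · exact jF_of c rfl
  · intro b _ hb
    exact jF_ne c hb.symm
  · intro h; exact absurd (Finset.mem_univ _) h

theorem pf_JVV (h1 : Pool.Agent.H67.AG.T_J1) : T_JVV := by
  intro c Z
  classical
  haveI : IsMarkovKernel (kap c.μ Z) := by unfold kap; infer_instance
  haveI : IsProbabilityMeasure (JJ c.μ Z) := by unfold JJ; infer_instance
  have hwt : ∀ b, c.wt Z b = c.μ[jF c b | Z.1] := fun b => rfl
  have hnn : ∀ᵐ x ∂c.μ, ∀ b, 0 ≤ c.wt Z b x := by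
    rw [ae_all_iff]
    intro b
    have := condExp_nonneg (m := Z.1) (μ := c.μ) (f := jF c b)
      (Filter.Eventually.of_forall fun x => jF_nonneg c b x)
    filter_upwards [this] with x hx
    rw [hwt]
    exact hx
  have hsum : ∀ᵐ x ∂c.μ, ∑ b, c.wt Z b x = 1 := by
    have h2 := condExp_finsetSum (m := Z.1) (μ := c.μ) (s := (Finset.univ : Finset (Fin c.q)))
      (f := fun b => jF c b) (fun b _ => jF_int c b)
    have h3 : (∑ b, jF c b) = fun _ => (1 : ℝ) := jF_sum c
    rw [h3] at h2
    have h4 : c.μ[fun _ => (1 : ℝ) | Z.1] = fun _ => (1 : ℝ) := condExp_const Z.2 1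
    rw [h4] at h2
    filter_upwards [h2] with x hx
    rw [Finset.sum_apply] at hx
    simp only [hwt]
    exact hx.symm
  have hvv : ∀ᵐ x ∂c.μ, c.vv Z x = 1 - ∑ b, c.wt Z b x ^ 2 := by
    filter_upwards [hnn, hsum] with x hx hs
    have h2 : 0 ≤ ∑ b, c.wt Z b x ^ 2 := Finset.sum_nonneg fun b _ => sq_nonneg _
    have h3 : ∑ b, c.wt Z b x ^ 2 ≤ 1 := by
      rw [← hs]
      refine Finset.sum_le_sum fun b _ => ?_
      have h4 : c.wt Z b x ≤ 1 := by
        rw [← hs]
        exact Finset.single_le_sum (f := fun b => c.wt Z b x) (fun i _ => hx i)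
          (Finset.mem_univ b)
      rw [sq]
      exact mul_le_of_le_one_left (hx b) h4
    unfold Vx.vv
    rw [min_eq_right (by linarith), max_eq_right (by linarith)]
  have hint : ∀ b, Integrable (fun x => c.wt Z b x ^ 2) c.μ := by
    intro b
    have hb : ∀ᵐ x ∂c.μ, |c.wt Z b x| ≤ 1 := by
      filter_upwards [hnn, hsum] with x hx hs
      rw [abs_of_nonneg (hx b), ← hs]
      exact Finset.single_le_sum (f := fun b => c.wt Z b x) (fun i _ => hx i)
        (Finset.mem_univ b)
    refine Integrable.of_bound ?_ 1 ?_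
    · have : AEStronglyMeasurable (c.wt Z b) c.μ := by
        rw [hwt]
        exact integrable_condExp.aestronglyMeasurable
      exact this.pow 2
    · filter_upwards [hb] with x hx
      rw [Real.norm_eq_abs, abs_pow]
      exact pow_le_one₀ (abs_nonneg _) hx
  rw [integral_congr_ae hvv, integral_sub (integrable_const _)
    (integrable_finsetSum _ fun b _ => hint b), integral_finsetSum _ fun b _ => hint b,
    integral_const, probReal_univ, one_smul]
  have hms : MeasurableSet {p : c.X × c.X | c.a p.1 = c.a p.2} :=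
    measurableSet_eq_fun (c.am.comp measurable_fst) (c.am.comp measurable_snd)
  have hcomp : {p : c.X × c.X | c.a p.1 ≠ c.a p.2} = {p | c.a p.1 = c.a p.2}ᶜ := rfl
  rw [hcomp, probReal_compl_eq_one_sub hms]
  congr 1
  have e1 : (JJ c.μ Z).real {p : c.X × c.X | c.a p.1 = c.a p.2} =
      ∫ p, ∑ b, jF c b p.1 * jF c b p.2 ∂(JJ c.μ Z) := by
    rw [← integral_indicator_one hms]
    refine integral_congr_ae (Filter.Eventually.of_forall fun p => ?_)
    change Set.indicator _ _ _ = ∑ b, _
    rw [Finset.sum_eq_single (c.a p.1)]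
    · rw [jF_of c rfl, one_mul]
      by_cases h : c.a p.1 = c.a p.2
      · rw [Set.indicator_of_mem (show p ∈ {p : c.X × c.X | c.a p.1 = c.a p.2} from h),
          jF_of c h.symm]
        rfl
      · rw [Set.indicator_of_notMem (show p ∉ {p : c.X × c.X | c.a p.1 = c.a p.2} from h),
          jF_ne c (Ne.symm h)]
    · intro b _ hb
      rw [jF_ne c hb.symm, zero_mul]
    · intro h; exact absurd (Finset.mem_univ _) h
  rw [e1, integral_finsetSum]
  · refine Finset.sum_congr rfl fun b _ => ?_
    rw [h1 c.X c.μ Z (jF c b) (jF c b) (jF_meas c b) (jF_meas c b) ⟨1, jF_abs c b⟩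
      ⟨1, jF_abs c b⟩]
    refine integral_congr_ae (Filter.Eventually.of_forall fun x => ?_)
    change c.wt Z b x ^ 2 = _
    rw [sq, hwt]
  · intro b _
    refine Integrable.of_bound (((jF_meas c b).comp measurable_fst).mul
      ((jF_meas c b).comp measurable_snd)).aestronglyMeasurable 1 ?_
    refine Filter.Eventually.of_forall fun p => ?_
    rw [Real.norm_eq_abs, abs_mul]
    exact mul_le_one₀ (jF_abs c b _) (abs_nonneg _) (jF_abs c b _)

end Pool.Agent.H60.V
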